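import Pool.Agent.Helper31.TW.St2

set_option autoImplicit false

/-! Project TW (MP_434a84_lc), module ACT (helper85 for helper31): facts on active walls. -/

namespace Pool.Agent.Helper85.TW

open Pool.Agent.Helper31.TW

theorem dot_add {n : ℕ} (α x y : Fin n → ℤ) : dot α (x + y) = dot α x + dot α y := by
  unfold dot
  rw [← Finset.sum_add_distrib]
  apply Finset.sum_congr rfl
  intro i _
  rw [Pi.add_apply, mul_add]

theorem dot_smul {n : ℕ} (α : Fin n → ℤ) (s : ℤ) (x : Fin n → ℤ) : dot α (s • x) = s * dot α x := by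
  unfold dot
  rw [Finset.mul_sum]
  apply Finset.sum_congr rfl
  intro i _
  rw [Pi.smul_apply, smul_eq_mul]
  ring

theorem dot_neg {n : ℕ} (α x : Fin n → ℤ) : dot α (-x) = -dot α x := by
  have h := dot_smul α (-1) x
  rw [neg_one_smul] at h
  rw [h]
  ring

theorem hACT (hEV1 : StEV1) (hEV2 : StEV2) (hCHO : StCHO) (hCLA : StCLA) : StACT := by
  intro n M 𝓐 K hC α hα
  have hH : ∀ x x' y : Fin n → ℤ, Gen 𝓐 α y → dot α x = dot α x' → (Ev M x y ↔ Ev M x' y) := by
    intro x x' y hy hx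
    refine (hEV1 n M 𝓐 K hC.dep).2.2 x x' y y (fun _ _ => rfl) ?_
    intro β hβ h0
    by_cases hβα : β = α
    · rw [hβα]
      exact hx
    · exact absurd h0 (hy.2.2 β hβ hβα)
  have c1 : ∀ x y' u' : Fin n → ℤ, Act M 𝓐 α x → Gen 𝓐 α y' → dot α u' = 1 →
      ∀ s0 : ℕ, ∃ s : ℤ, (s0 : ℤ) ≤ |s| ∧ ¬ (Ev M (x + s • u') y' ↔ Ev M x y') := by
    rintro x y' u' ⟨y, u, hy, hu, hs⟩ hy' hu' s0
    obtain ⟨s, hs0, hne⟩ := hs s0
    have hcl : ∀ z : Fin n → ℤ, (Ev M z y ↔ Ev M z y') := by
      by_cases h1 : Ev M x y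
      · have h2 : ¬ Ev M (x + s • u) y := by
          intro h
          exact hne ⟨fun _ => h1, fun _ => h⟩
        exact hCLA n M 𝓐 K hC α hα y y' x (x + s • u) hy hy' h1 h2
      · have h2 : Ev M (x + s • u) y := by
          by_contra h
          exact hne ⟨fun h' => absurd h' h, fun h' => absurd h' h1⟩
        exact hCLA n M 𝓐 K hC α hα y y' (x + s • u) x hy hy' h2 h1
    refine ⟨s, hs0, ?_⟩
    intro h
    apply hne
    have e1 : Ev M (x + s • u') y' ↔ Ev M (x + s • u) y' := by
      apply hH _ _ _ hy'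
      rw [dot_add, dot_smul, dot_add, dot_smul, hu, hu']
    rw [hcl (x + s • u), ← e1, h, hcl x]
  refine ⟨c1, ?_, ?_, ?_, ?_, ?_⟩
  · rintro x x' ⟨y, u, hy, hu, hs⟩ hx
    refine ⟨y, u, hy, hu, ?_⟩
    intro s0
    obtain ⟨s, hs0, hne⟩ := hs s0
    refine ⟨s, hs0, ?_⟩
    have e1 : Ev M (x' + s • u) y ↔ Ev M (x + s • u) y := by
      apply hH _ _ _ hy
      rw [dot_add, dot_add, hx]
    have e2 : Ev M x' y ↔ Ev M x y := hH _ _ _ hy hx
    rw [e1, e2]
    exact hne
  · intro x y y2 hact hy hy2 h0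
    obtain ⟨u, hu⟩ := hC.nrm.1 α hα
    obtain ⟨G, _, hG⟩ := hCHO n M 𝓐 K hC α hα y y2 u x hy hy2 h0 hu
    obtain ⟨sp, hsp⟩ := (hEV2 n M 𝓐 K hC.dep).2 x y u
    obtain ⟨sm, hsm⟩ := (hEV2 n M 𝓐 K hC.dep).2 x y (-u)
    obtain ⟨s1, hs1, hne⟩ := c1 x y u hact hy hu (max sp sm)
    have hmax1 : (sp : ℤ) ≤ |s1| := by
      refine le_trans ?_ hs1
      exact_mod_cast le_max_left _ _
    have hmax2 : (sm : ℤ) ≤ |s1| := by
      refine le_trans ?_ hs1
      exact_mod_cast le_max_right _ _
    have h := hG 0 ?_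
    · simpa using h
    · intro g hg _
      refine ⟨s1, ?_⟩
      have hg' : (1 : ℤ) ≤ (g : ℤ) := by exact_mod_cast hg
      have hz : x + (0 : ℤ) • u = x := by simp
      rw [hz]
      have e1 : Ev M (x + (s1 * (g : ℤ)) • u) y ↔ Ev M (x + s1 • u) y := by
        rcases le_total 0 s1 with h1 | h1
        · rw [abs_of_nonneg h1] at hmax1
          apply hsp
          · nlinarith
          · exact hmax1
        · rw [abs_of_nonpos h1] at hmax2
          have h2 : (sm : ℤ) ≤ (-s1) * (g : ℤ) := by nlinarith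
          have h3 := hsm ((-s1) * (g : ℤ)) (-s1) h2 hmax2
          have e2 : x + ((-s1) * (g : ℤ)) • (-u) = x + (s1 * (g : ℤ)) • u := by
            congr 1
            rw [smul_neg, ← neg_smul]
            congr 1
            ring
          have e3 : x + (-s1) • (-u) = x + s1 • u := by
            congr 1
            rw [smul_neg, ← neg_smul, neg_neg]
          rw [e2, e3] at h3
          exact h3
      rw [e1]
      exact hne
  · intro x y u hna hy hu
    by_contra hcon
    apply hna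
    refine ⟨y, u, hy, hu, ?_⟩
    intro s0
    by_contra h2
    apply hcon
    refine ⟨s0, ?_⟩
    intro s hs
    by_contra h3
    exact h2 ⟨s, hs, h3⟩
  · rintro ⟨y, u, hy, hu, hs⟩ x
    refine ⟨y, u, hy, hu, ?_⟩
    intro s0
    obtain ⟨s1, hs1, hne⟩ := hs (s0 + (dot α x).natAbs)
    have ha : ((dot α x).natAbs : ℤ) = |dot α x| := Int.natCast_natAbs _
    push_cast at hs1
    by_cases h1 : (Ev M (s1 • u) y ↔ Ev M x y)
    · refine ⟨-s1 - dot α x, ?_, ?_⟩
      · have h4 : -s1 - dot α x = -(s1 + dot α x) := by ring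
        rw [h4, abs_neg]
        have h5 := neg_abs_le (dot α x)
        have h6 := le_abs_self (s1 + dot α x)
        omega
      · intro h2
        apply hne
        have e1 : Ev M (x + (-s1 - dot α x) • u) y ↔ Ev M (-(s1 • u)) y := by
          apply hH _ _ _ hy
          rw [dot_add, dot_smul, dot_neg, dot_smul, hu]
          ring
        rw [h1, ← e1, h2]
    · refine ⟨s1 - dot α x, ?_, ?_⟩
      · have h5 := le_abs_self (dot α x)
        have h6 := le_abs_self (s1 - dot α x)
        omega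
      · intro h2
        apply h1
        have e1 : Ev M (x + (s1 - dot α x) • u) y ↔ Ev M (s1 • u) y := by
          apply hH _ _ _ hy
          rw [dot_add, dot_smul, dot_smul, hu]
          ring
        rw [← e1, h2]
  · intro hnj y u hy hu
    by_contra hcon
    apply hnj
    refine ⟨y, u, hy, hu, ?_⟩
    intro s0
    by_contra h2
    apply hcon
    refine ⟨s0, ?_⟩
    intro s hs
    by_contra h3
    exact h2 ⟨s, hs, h3⟩

end Pool.Agent.Helper85.TW
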